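import Mathlib

namespace Pool.Agent.Lib.MP_948f5d_co

universe u v

variable {B : Type u}

/-- A braid move replaces a consecutive factor `s t s` by `t s t`, where `m(s,t) = 3`. -/
def BraidMove (M : CoxeterMatrix B) (x y : List B) : Prop :=
  ∃ (l r : List B) (s t : B), M s t = 3 ∧ x = l ++ [s, t, s] ++ r ∧ y = l ++ [t, s, t] ++ r

/-- The braid class of a word. -/
def braidClass (M : CoxeterMatrix B) (α : List B) : Set (List B) :=
  {β | Relation.ReflTransGen (BraidMove M) α β}

/-- The braid graph: vertices are the words of the braid class, adjacent when a single braid move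
relates them. -/
def braidGraph (M : CoxeterMatrix B) (α : List B) : SimpleGraph (braidClass M α) :=
  SimpleGraph.fromRel fun x y => BraidMove M x.1 y.1

/-- The triple of positions `i-1, i, i+1` (positions counted from 1) is a braid shadow of `β`. -/
def IsShadow (M : CoxeterMatrix B) (β : List B) (i : ℕ) : Prop :=
  ∃ (l r : List B) (s t : B), M s t = 3 ∧ β = l ++ [s, t, s] ++ r ∧ i = l.length + 2

/-- The braid shadows of all words of the braid class, each recorded by its centre. -/
def shadowSet (M : CoxeterMatrix B) (α : List B) : Set ℕ :=
  {i | ∃ β ∈ braidClass M α, IsShadow M β i}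

/-- A link: a reduced word of length 1, or of odd length `m` whose class has exactly the shadows
with centres `2, 4, ..., m - 1`. -/
def IsLink {W : Type v} [Group W] {M : CoxeterMatrix B} (cs : CoxeterSystem M W) (α : List B) :
    Prop :=
  cs.IsReduced α ∧ (α.length = 1 ∨
    (Odd α.length ∧ shadowSet M α = {i | Even i ∧ 2 ≤ i ∧ i + 1 ≤ α.length}))

end Pool.Agent.Lib.MP_948f5d_co
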