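import Pool.Agent.Lib.MP_948f5d_co.Defs

namespace Pool.Agent.Lib.MP_948f5d_co

universe u v

variable {B : Type u} {M : CoxeterMatrix B}

def Mv (M : CoxeterMatrix B) (p : ℕ) (x y : List B) : Prop :=
  ∃ s t : B, M s t = 3 ∧ x[p]? = some s ∧ x[p + 1]? = some t ∧ x[p + 2]? = some s ∧
    y[p]? = some t ∧ y[p + 1]? = some s ∧ y[p + 2]? = some t ∧
    ∀ q, q < p ∨ p + 2 < q → y[q]? = x[q]?

theorem ne_of_three {s t : B} (h : M s t = 3) : s ≠ t := by
  rintro rfl
  rw [M.diagonal] at h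
  omega

theorem three_symm {s t : B} (h : M s t = 3) : M t s = 3 := by
  rw [M.symmetric]; exact h

theorem mv_append (l r : List B) {s t : B} (h : M s t = 3) :
    Mv M l.length (l ++ [s, t, s] ++ r) (l ++ [t, s, t] ++ r) := by
  refine ⟨s, t, h, ?_, ?_, ?_, ?_, ?_, ?_, ?_⟩
  · simp
  · simp
  · simp
  · simp
  · simp
  · simp
  · intro q hq
    rcases hq with hq | hq
    · simp [List.getElem?_append_left, hq]
    · obtain ⟨k, rfl⟩ : ∃ k, q = l.length + (k + 3) := ⟨q - l.length - 3, by omega⟩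
      simp [List.getElem?_append_right]

theorem eq_append {x : List B} {p : ℕ} {a b c : B} (h0 : x[p]? = some a) (h1 : x[p + 1]? = some b)
    (h2 : x[p + 2]? = some c) :
    x = x.take p ++ [a, b, c] ++ x.drop (p + 3) ∧ (x.take p).length = p := by
  obtain ⟨hp, e2⟩ := List.getElem?_eq_some_iff.1 h2
  obtain ⟨hp1, e1⟩ := List.getElem?_eq_some_iff.1 h1
  obtain ⟨hp0, e0⟩ := List.getElem?_eq_some_iff.1 h0
  refine ⟨?_, by simp; omega⟩
  conv_lhs => rw [← List.take_append_drop p x]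
  rw [List.drop_eq_getElem_cons hp0, List.drop_eq_getElem_cons hp1, List.drop_eq_getElem_cons hp,
    e0, e1, e2]
  simp

theorem Mv.symm {p : ℕ} {x y : List B} (h : Mv M p x y) : Mv M p y x := by
  obtain ⟨s, t, h, a0, a1, a2, b0, b1, b2, e⟩ := h
  exact ⟨t, s, three_symm h, b0, b1, b2, a0, a1, a2, fun q hq => (e q hq).symm⟩

theorem Mv.det {p : ℕ} {x y y' : List B} (h : Mv M p x y) (h' : Mv M p x y') : y = y' := by
  obtain ⟨s, t, h, a0, a1, a2, b0, b1, b2, e⟩ := h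
  obtain ⟨s', t', h', a0', a1', a2', b0', b1', b2', e'⟩ := h'
  have hs : s = s' := Option.some.inj (a0.symm.trans a0')
  have ht : t = t' := Option.some.inj (a1.symm.trans a1')
  subst hs ht
  apply List.ext_getElem?
  intro q
  by_cases hq : q < p ∨ p + 2 < q
  · rw [e q hq, e' q hq]
  · have : q = p ∨ q = p + 1 ∨ q = p + 2 := by omega
    rcases this with rfl | rfl | rfl
    · rw [b0, b0']
    · rw [b1, b1']
    · rw [b2, b2']

theorem exists_mv {x : List B} {p : ℕ} {s t : B} (h : M s t = 3) (h0 : x[p]? = some s)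
    (h1 : x[p + 1]? = some t) (h2 : x[p + 2]? = some s) : ∃ y, Mv M p x y := by
  obtain ⟨e, hl⟩ := eq_append h0 h1 h2
  have := mv_append (x.take p) (x.drop (p + 3)) h
  rw [← e, hl] at this
  exact ⟨_, this⟩

theorem Mv.move {p : ℕ} {x y : List B} (h : Mv M p x y) :
    BraidMove M x y ∧ IsShadow M x (p + 2) := by
  have h' := h
  obtain ⟨s, t, h, a0, a1, a2, -⟩ := h
  obtain ⟨e, hl⟩ := eq_append a0 a1 a2
  have := mv_append (x.take p) (x.drop (p + 3)) h
  rw [← e, hl] at this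
  exact ⟨⟨_, _, s, t, h, e, h'.det this⟩, ⟨_, _, s, t, h, e, by rw [hl]⟩⟩

theorem BraidMove.mv {x y : List B} (h : BraidMove M x y) : ∃ p, Mv M p x y := by
  obtain ⟨l, r, s, t, h, rfl, rfl⟩ := h
  exact ⟨_, mv_append l r h⟩

theorem Mv.ne {p : ℕ} {x y : List B} (h : Mv M p x y) : x ≠ y := by
  obtain ⟨s, t, h, a0, -, -, b0, -⟩ := h
  rintro rfl
  exact ne_of_three h (Option.some.inj (a0.symm.trans b0))

theorem Mv.comm {p q : ℕ} {v x y : List B} (hx : Mv M p v x) (hy : Mv M q v y)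
    (hpq : p + 3 ≤ q ∨ q + 3 ≤ p) : ∃ z, Mv M q x z ∧ Mv M p y z := by
  obtain ⟨s, t, h, a0, a1, a2, b0, b1, b2, e⟩ := hx
  obtain ⟨s', t', h', a0', a1', a2', b0', b1', b2', e'⟩ := hy
  obtain ⟨z, hz⟩ := exists_mv (x := x) (p := q) h' (by rw [e q (by omega), a0'])
    (by rw [e _ (by omega), a1']) (by rw [e _ (by omega), a2'])
  refine ⟨z, hz, ?_⟩
  obtain ⟨s'', t'', -, c0, c1, -, d0, d1, d2, e''⟩ := hz
  have hs : s'' = s' := by
    rw [e q (by omega), a0'] at c0; exact (Option.some.inj c0).symm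
  have ht : t'' = t' := by
    rw [e _ (by omega), a1'] at c1; exact (Option.some.inj c1).symm
  subst hs ht
  refine ⟨s, t, h, by rw [e' _ (by omega), a0], by rw [e' _ (by omega), a1],
    by rw [e' _ (by omega), a2], by rw [e'' _ (by omega), b0], by rw [e'' _ (by omega), b1],
    by rw [e'' _ (by omega), b2], ?_⟩
  intro r hr
  by_cases hq : r < q ∨ q + 2 < r
  · rw [e'' r hq, e r hr, e' r hq]
  · have : r = q ∨ r = q + 1 ∨ r = q + 2 := by omega
    rcases this with rfl | rfl | rfl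
    · rw [d0, b0']
    · rw [d1, b1']
    · rw [d2, b2']

theorem Mv.no_square {p a b : ℕ} {v x y z : List B} (hx : Mv M p v x) (hy : Mv M (p + 2) v y)
    (ha : Mv M a x z) (hb : Mv M b y z) (ep : p % 2 = 0) (ea : a % 2 = 0) (eb : b % 2 = 0) :
    z = v := by
  by_cases hap : a = p
  · subst hap
    exact ha.det hx.symm
  exfalso
  obtain ⟨s, t, h, a0, a1, a2, b0, b1, b2, e⟩ := hx
  obtain ⟨s', t', h', a0', a1', a2', b0', b1', b2', e'⟩ := hy
  obtain ⟨s1, t1, -, c0, -, c2, -, -, -, e1⟩ := ha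
  obtain ⟨-, -, -, -, -, -, -, -, -, e2⟩ := hb
  have hs : s' = s := Option.some.inj (a0'.symm.trans a2)
  subst hs
  have key : ∀ r, x[r]? ≠ y[r]? → ¬ ((r < a ∨ a + 2 < r) ∧ (r < b ∨ b + 2 < r)) := by
    rintro r hr ⟨h1, h2⟩
    exact hr ((e1 r h1).symm.trans (e2 r h2))
  have k0 := key p (by
    rw [b0, e' p (by omega), a0]; exact fun c => ne_of_three h (Option.some.inj c).symm)
  have k1 := key (p + 1) (by
    rw [b1, e' _ (by omega), a1]; exact fun c => ne_of_three h (Option.some.inj c))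
  have k3 := key (p + 2 + 1) (by
    rw [b1', e _ (by omega), a1']; exact fun c => ne_of_three h' (Option.some.inj c).symm)
  have k4 := key (p + 2 + 2) (by
    rw [b2', e _ (by omega), a2']; exact fun c => ne_of_three h' (Option.some.inj c))
  have hap2 : a = p + 2 := by omega
  subst hap2
  rw [b2] at c0
  rw [e _ (by omega), a2'] at c2
  exact ne_of_three h ((Option.some.inj c2).trans (Option.some.inj c0).symm)

theorem adj_iff {α : List B} {x y : braidClass M α} :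
    (braidGraph M α).Adj x y ↔ ∃ p, Mv M p x.1 y.1 := by
  rw [braidGraph, SimpleGraph.fromRel_adj]
  constructor
  · rintro ⟨-, h | h⟩
    · exact h.mv
    · obtain ⟨p, hp⟩ := h.mv
      exact ⟨p, hp.symm⟩
  · rintro ⟨p, hp⟩
    exact ⟨fun c => hp.ne (congrArg Subtype.val c), Or.inl hp.move.1⟩

theorem braid_preconnected (α : List B) : (braidGraph M α).Preconnected := by
  have key : ∀ β (h : Relation.ReflTransGen (BraidMove M) α β),
      (braidGraph M α).Reachable ⟨α, Relation.ReflTransGen.refl⟩ ⟨β, h⟩ := by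
    intro β h
    induction h with
    | refl => rfl
    | tail h1 h2 ih => exact ih.trans (SimpleGraph.Adj.reachable (adj_iff.2 h2.mv))
  intro x y
  exact (key x.1 x.2).symm.trans (key y.1 y.2)

theorem length_eq {α β : List B} (h : β ∈ braidClass M α) : β.length = α.length := by
  induction h with
  | refl => rfl
  | tail _ h2 ih =>
    obtain ⟨l, r, s, t, -, rfl, rfl⟩ := h2
    simpa using ih

section Product

open SimpleGraph

variable {α : List B} {V1 V2 : Type*} {G : SimpleGraph V1} {H : SimpleGraph V2}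

theorem square (hev : ∀ p (x : braidClass M α) y, Mv M p x.1 y → p % 2 = 0)
    (ψ : G.boxProd H ≃g braidGraph M α) {g g' : V1} {h h' : V2} (hg : G.Adj g g') (hh : H.Adj h h')
    {i j : ℕ} (hi : Mv M i (ψ (g, h)).1 (ψ (g', h)).1) (hj : Mv M j (ψ (g, h)).1 (ψ (g, h')).1) :
    (i + 3 ≤ j ∨ j + 3 ≤ i) ∧ Mv M i (ψ (g, h')).1 (ψ (g', h')).1 ∧
      Mv M j (ψ (g', h)).1 (ψ (g', h')).1 := by
  have inj : ∀ {a b : V1 × V2}, (ψ a).1 = (ψ b).1 → a = b := fun c =>
    ψ.injective (Subtype.ext c)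
  obtain ⟨a, ha⟩ := adj_iff.1 (ψ.map_adj_iff.2 (boxProd_adj_right.2 hh : (G.boxProd H).Adj (g', h) (g', h')))
  obtain ⟨b, hb⟩ := adj_iff.1 (ψ.map_adj_iff.2 (boxProd_adj_left.2 hg : (G.boxProd H).Adj (g, h') (g', h')))
  have ei := hev _ _ _ hi
  have ej := hev _ _ _ hj
  have ea := hev _ _ _ ha
  have eb := hev _ _ _ hb
  have far : i + 3 ≤ j ∨ j + 3 ≤ i := by
    by_contra hc
    have : i = j ∨ j = i + 2 ∨ i = j + 2 := by omega
    rcases this with rfl | rfl | rfl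
    · exact hg.ne' (congrArg Prod.fst (inj (hi.det hj)))
    · exact hg.ne' (congrArg Prod.fst (inj (hi.no_square hj ha hb ei ea eb)))
    · exact hg.ne' (congrArg Prod.fst (inj (hj.no_square hi hb ha ej eb ea)))
  obtain ⟨z, hz1, hz2⟩ := hi.comm hj far
  have hzc : z ∈ braidClass M α := Relation.ReflTransGen.tail (ψ (g', h)).2 hz1.move.1
  obtain ⟨⟨w1, w2⟩, hw⟩ := ψ.surjective ⟨z, hzc⟩
  have hwz : (ψ (w1, w2)).1 = z := congrArg Subtype.val hw
  have n1 : (G.boxProd H).Adj (g', h) (w1, w2) := ψ.map_adj_iff.1 (adj_iff.2 ⟨j, by rw [hwz]; exact hz1⟩)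
  have n2 : (G.boxProd H).Adj (g, h') (w1, w2) := ψ.map_adj_iff.1 (adj_iff.2 ⟨i, by rw [hwz]; exact hz2⟩)
  have hzv : z ≠ (ψ (g, h)).1 := by
    intro c
    rw [c] at hz1
    obtain ⟨s, t, h3, a0, -, -, b0, -, -, -⟩ := hz1
    obtain ⟨-, -, -, -, -, -, -, -, -, e⟩ := hi
    rw [e j (by omega), b0] at a0
    exact ne_of_three h3 (Option.some.inj a0).symm
  have hw' : (w1, w2) = (g', h') := by
    rw [boxProd_adj] at n1 n2
    simp only at n1 n2
    rcases n1 with ⟨-, e1⟩ | ⟨-, e1⟩ <;> rcases n2 with ⟨-, e2⟩ | ⟨-, e2⟩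
    · exact absurd (e1.trans e2.symm) hh.ne
    · exact absurd (by rw [← hwz, ← e1, ← e2]) hzv
    · rw [← e1, ← e2]
    · exact absurd (e2.trans e1.symm) hg.ne
  rw [hw'] at hwz
  rw [hwz]
  exact ⟨far, hz2, hz1⟩

theorem transport_right (hev : ∀ p (x : braidClass M α) y, Mv M p x.1 y → p % 2 = 0)
    (ψ : G.boxProd H ≃g braidGraph M α) {g g' : V1} (hg : G.Adj g g') {i : ℕ} {h h2 : V2}
    (hr : H.Reachable h h2) (hi : Mv M i (ψ (g, h)).1 (ψ (g', h)).1) :
    Mv M i (ψ (g, h2)).1 (ψ (g', h2)).1 := by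
  obtain ⟨w⟩ := hr
  induction w with
  | nil => exact hi
  | cons hadj _ ih =>
    obtain ⟨j, hj⟩ := adj_iff.1 (ψ.map_adj_iff.2 (boxProd_adj_right.2 hadj : (G.boxProd H).Adj (g, _) (g, _)))
    exact ih (square hev ψ hg hadj hi hj).2.1

theorem transport_left (hev : ∀ p (x : braidClass M α) y, Mv M p x.1 y → p % 2 = 0)
    (ψ : G.boxProd H ≃g braidGraph M α) {h h' : V2} (hh : H.Adj h h') {j : ℕ} {g g2 : V1}
    (hr : G.Reachable g g2) (hj : Mv M j (ψ (g, h)).1 (ψ (g, h')).1) :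
    Mv M j (ψ (g2, h)).1 (ψ (g2, h')).1 := by
  obtain ⟨w⟩ := hr
  induction w with
  | nil => exact hj
  | cons hadj _ ih =>
    obtain ⟨i, hi⟩ := adj_iff.1 (ψ.map_adj_iff.2 (boxProd_adj_left.2 hadj : (G.boxProd H).Adj (_, h) (_, h)))
    exact ih (square hev ψ hadj hh hi hj).2.2

theorem exists_adj_of {V : Type*} {K : SimpleGraph V} [Nontrivial V] (hK : K.Preconnected) :
    ∃ a b, K.Adj a b := by
  obtain ⟨a, b, hab⟩ := exists_pair_ne V
  obtain ⟨w⟩ := hK a b
  cases w with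
  | nil => exact absurd rfl hab
  | cons h _ => exact ⟨_, _, h⟩

theorem interval (P Q : ℕ → Prop) (m i j : ℕ) (hi : P i) (hj : Q j) (hij : i ≤ j)
    (ei : i % 2 = 0) (ej : j % 2 = 0) (hjm : j + 3 ≤ m)
    (cover : ∀ p, p % 2 = 0 → p + 3 ≤ m → P p ∨ Q p)
    (far : ∀ a b, P a → Q b → a + 3 ≤ b ∨ b + 3 ≤ a) : False := by
  have key : ∀ n, i + 2 * n ≤ j → P (i + 2 * n) := by
    intro n
    induction n with
    | zero => intro _; exact hi
    | succ n ih =>
      intro hn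
      rcases cover (i + 2 * (n + 1)) (by omega) (by omega) with h | h
      · exact h
      · have := far _ _ (ih (by omega)) h
        omega
  have h1 := key ((j - i) / 2) (by omega)
  have := far _ _ h1 hj
  omega

theorem main [Nontrivial V1] [Nontrivial V2]
    (hl : α.length = 1 ∨
      (Odd α.length ∧ shadowSet M α = {i | Even i ∧ 2 ≤ i ∧ i + 1 ≤ α.length}))
    (ψ : G.boxProd H ≃g braidGraph M α) : False := by
  have hpre : (G.boxProd H).Preconnected := ψ.preconnected_iff.2 (braid_preconnected α)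
  have hG : G.Preconnected := hpre.ofBoxProdLeft
  have hH : H.Preconnected := hpre.ofBoxProdRight
  obtain ⟨g, g', hg⟩ := exists_adj_of hG
  obtain ⟨h, h', hh⟩ := exists_adj_of hH
  have hlen : ∀ p (x : braidClass M α) y, Mv M p x.1 y → p + 3 ≤ α.length := by
    rintro p x y ⟨s, t, -, -, -, a2, -⟩
    have := (List.getElem?_eq_some_iff.1 a2).1
    have := length_eq x.2
    omega
  obtain ⟨i, hi⟩ := adj_iff.1 (ψ.map_adj_iff.2 (boxProd_adj_left.2 hg : (G.boxProd H).Adj (g, h) (g', h)))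
  obtain ⟨j, hj⟩ := adj_iff.1 (ψ.map_adj_iff.2 (boxProd_adj_right.2 hh : (G.boxProd H).Adj (g, h) (g, h')))
  rcases hl with hl | ⟨-, hl⟩
  · have := hlen _ _ _ hi
    omega
  have hev : ∀ p (x : braidClass M α) y, Mv M p x.1 y → p % 2 = 0 := by
    intro p x y hp
    have : p + 2 ∈ shadowSet M α := ⟨x.1, x.2, hp.move.2⟩
    rw [hl] at this
    have := Nat.even_iff.1 this.1
    omega
  let P : ℕ → Prop := fun p => ∃ a a' b, G.Adj a a' ∧ Mv M p (ψ (a, b)).1 (ψ (a', b)).1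
  let Q : ℕ → Prop := fun p => ∃ a b b', H.Adj b b' ∧ Mv M p (ψ (a, b)).1 (ψ (a, b')).1
  have far : ∀ p q, P p → Q q → p + 3 ≤ q ∨ q + 3 ≤ p := by
    rintro p q ⟨a, a', b, ha, hp⟩ ⟨c, d, d', hd, hq⟩
    exact (square hev ψ ha hd (transport_right hev ψ ha (hH b d) hp)
      (transport_left hev ψ hd (hG c a) hq)).1
  have cover : ∀ p, p % 2 = 0 → p + 3 ≤ α.length → P p ∨ Q p := by
    intro p hp hm
    have : p + 2 ∈ shadowSet M α := by
      rw [hl]
      exact ⟨Nat.even_iff.2 (by omega), by omega, by omega⟩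
    obtain ⟨β, hβ, l, r, s, t, h3, rfl, e⟩ := this
    have hmv := mv_append l r h3
    have e' : l.length = p := by omega
    rw [e'] at hmv
    have hγ : l ++ [t, s, t] ++ r ∈ braidClass M α := Relation.ReflTransGen.tail hβ hmv.move.1
    obtain ⟨⟨a, b⟩, e1⟩ := ψ.surjective ⟨_, hβ⟩
    obtain ⟨⟨a', b'⟩, e2⟩ := ψ.surjective ⟨_, hγ⟩
    have e1' : (ψ (a, b)).1 = l ++ [s, t, s] ++ r := congrArg Subtype.val e1
    have e2' : (ψ (a', b')).1 = l ++ [t, s, t] ++ r := congrArg Subtype.val e2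
    rw [← e1', ← e2'] at hmv
    have n := ψ.map_adj_iff.1 (adj_iff.2 ⟨p, hmv⟩)
    rw [boxProd_adj] at n
    simp only at n
    rcases n with ⟨n, rfl⟩ | ⟨n, rfl⟩
    · exact Or.inl ⟨a, a', b, n, hmv⟩
    · exact Or.inr ⟨a, b, b', n, hmv⟩
  have Pi : P i := ⟨g, g', h, hg, hi⟩
  have Qj : Q j := ⟨g, h, h', hh, hj⟩
  rcases le_total i j with hij | hij
  · exact interval P Q _ i j Pi Qj hij (hev _ _ _ hi) (hev _ _ _ hj) (hlen _ _ _ hj) cover far
  · exact interval Q P _ j i Qj Pi hij (hev _ _ _ hj) (hev _ _ _ hi) (hlen _ _ _ hi)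
      (fun p a b => (cover p a b).symm) (fun a b x y => (far b a y x).symm)

end Product

end Pool.Agent.Lib.MP_948f5d_co
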